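import Pool.Agent.J6H50.RF.Stm

/-!
# RF-07: the initial segment, the other functions
-/

set_option autoImplicit false

namespace Pool.Agent.J6H94.RF07

open Pool.Agent.J6H50.RF Pool.Agent.NPC

theorem size_half {n : ℕ} (hn : n ≠ 0) : n.size = (n / 2).size + 1 := by
  apply le_antisymm
  · rw [Nat.size_le, pow_succ]
    have h := Nat.lt_size_self (n / 2)
    omega
  · rw [Nat.succ_le_iff, Nat.lt_size]
    rcases Nat.eq_zero_or_pos (n / 2).size with h | h
    · rw [h, pow_zero]
      omega
    · obtain ⟨k, hk⟩ := Nat.exists_eq_succ_of_ne_zero (Nat.pos_iff_ne_zero.1 h)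
      have h1 : k < (n / 2).size := by omega
      rw [Nat.lt_size] at h1
      rw [hk, pow_succ]
      omega

theorem m07 : S_emb2 := by
  intro M A hB ι hinj h0 hs hadd hmul hle hinit
  have e1 : ι 1 = A.suc A.zero := by
    have := hs 0
    rwa [h0] at this
  have e2 : ι 2 = A.suc (A.suc A.zero) := by
    have := hs 1
    rwa [e1] at this
  have h2 : ∀ k, A.mul (A.suc (A.suc A.zero)) (ι k) = ι (2 * k) := by
    intro k
    rw [hmul, e2]
  have hhalf : ∀ n, ι (n / 2) = A.half (ι n) := by
    intro n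
    rw [hB.b32]
    rcases Nat.even_or_odd' n with ⟨c, hc | hc⟩
    · left
      rw [h2]
      congr 1
      omega
    · right
      rw [h2, ← hs]
      congr 1
      omega
  have hne : ∀ n, n ≠ 0 → ι n ≠ A.zero := by
    intro n hn h
    rw [← h0] at h
    exact hn (hinj _ _ h)
  have hlen : ∀ n, ι n.size = A.len (ι n) := by
    intro n
    induction n using Nat.strong_induction_on with
    | _ n ih =>
      rcases eq_or_ne n 0 with rfl | hn
      · rw [h0, hB.b9, Nat.size_zero, h0]
      · rw [hB.b31 _ (hne n hn), ← hhalf, ← ih (n / 2) (by omega), ← hs, size_half hn]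
  have hrefl : ∀ x, A.le x x := fun x => (hB.b6 x x).elim id id
  have h15 : ∀ k, k ≠ 0 → A.smash (ι 1) (ι (2 * k)) = A.mul (ι 2) (A.smash (ι 1) (ι k)) ∧
      A.smash (ι 1) (ι (2 * k + 1)) = A.mul (ι 2) (A.smash (ι 1) (ι k)) := by
    intro k hk
    rw [hs (2 * k), ← h2 k, e1, e2]
    exact hB.b15 _ (hne k hk)
  -- 1 # 1 = 2
  have h11 : A.smash (ι 1) (ι 1) = ι 2 := by
    have hl : A.len (A.smash (ι 1) (ι 1)) = ι 2 := by
      rw [hB.b13, ← hlen, ← hmul, ← hs]
      congr 1
    have hne0 : A.smash (ι 1) (ι 1) ≠ A.zero := by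
      intro h
      rw [h, hB.b9, ← h0] at hl
      exact absurd (hinj _ _ hl) (by norm_num)
    have hone : A.le (A.suc A.zero) (A.smash (ι 1) (ι 1)) :=
      (hB.b4 _ _).1 ⟨hB.b3 _, fun h => hne0 h.symm⟩
    have ha : A.smash (ι 2) (ι 1) = A.mul (A.smash (ι 1) (ι 1)) (A.smash (ι 1) (ι 1)) := by
      apply hB.b18
      rw [← hlen, ← hlen, ← hadd]
      congr 1
    have hb : A.smash (ι 2) (ι 1) = A.mul (A.smash (ι 1) (ι 1)) (ι 2) := by
      have h3 : A.smash (ι 1) (ι 2) = A.mul (ι 2) (A.smash (ι 1) (ι 1)) := (h15 1 one_ne_zero).1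
      rw [hB.b16, h3, hB.b28]
    have hab : A.mul (A.smash (ι 1) (ι 1)) (A.smash (ι 1) (ι 1)) =
        A.mul (A.smash (ι 1) (ι 1)) (ι 2) := ha.symm.trans hb
    apply hB.b7
    · rw [← hB.b30 _ _ _ hone, hab]
      exact hrefl _
    · rw [← hB.b30 _ _ _ hone, hab]
      exact hrefl _
  have h1n : ∀ n, A.smash (ι 1) (ι n) = ι (2 ^ n.size) := by
    intro n
    induction n using Nat.strong_induction_on with
    | _ n ih =>
      rcases eq_or_ne n 0 with rfl | hn
      · rw [h0, hB.b16, hB.b14, Nat.size_zero, pow_zero, e1]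
      · rcases eq_or_ne n 1 with rfl | hn1
        · rw [h11]
          congr 1
        · have hk : n / 2 ≠ 0 := by omega
          have h3 := h15 (n / 2) hk
          rw [ih (n / 2) (by omega), ← hmul] at h3
          rw [size_half hn, pow_succ, mul_comm (2 ^ _) 2]
          rcases Nat.even_or_odd' n with ⟨c, hc | hc⟩
          · rw [← h3.1]
            congr 2
            omega
          · rw [← h3.2]
            congr 2
            omega
  refine ⟨hinj, h0, hs, hadd, hmul, ?_, hlen, hhalf, hle, hinit⟩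
  intro m n
  induction m using Nat.strong_induction_on with
  | _ m ih =>
    rcases eq_or_ne m 0 with rfl | hm
    · rw [h0, hB.b14, Nat.size_zero, zero_mul, pow_zero, e1]
    · have h3 : A.smash (ι m) (ι n) = A.mul (A.smash (ι (m / 2)) (ι n)) (A.smash (ι 1) (ι n)) := by
        apply hB.b18
        rw [← hlen, ← hlen, ← hlen, ← hadd, size_half hm]
        congr 1
      rw [h3, ← ih (m / 2) (by omega), h1n, ← hmul, size_half hm]
      congr 1
      ring

end Pool.Agent.J6H94.RF07
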