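import Pool.Agent.J6H50.RF.Stm

/-!
# RF-18: values of terms
-/

set_option autoImplicit false

namespace Pool.Agent.J6H94.RF18

open Pool.Agent.J6H50.RF Pool.Agent.NPC

theorem upoly_size {α : Type} [TEnc α] {n : α → ℕ} (hn : Poly n) : UPoly (fun a => (n a).size) := by
  have h := UPoly.length (Poly.natBits hn)
  have e : (fun a => (n a).size) = fun a => (n a).bits.length := by
    funext a
    exact (Nat.size_eq_bits_len _).symm
  rw [e]
  exact h

theorem poly_two_pow {α : Type} [TEnc α] {n : α → ℕ} (hn : UPoly n) : Poly (fun a => 2 ^ n a) := by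
  have h1 : Poly (fun a => (List.replicate (n a) ()).map (fun _ => false)) :=
    NPC.Poly.map (F := fun _ _ => false) hn (NPC.Poly.const false)
  have h2 : Poly (fun a => valB (((List.replicate (n a) ()).map (fun _ => false)) ++ [true])) :=
    Poly.valBits (Poly.append h1 (NPC.Poly.const [true]))
  refine h2.congr fun a => ?_
  rw [List.map_replicate, valB_replicate_false, if_pos rfl, mul_one]

theorem poly_val : ∀ t : Tm, Poly (fun l : List ℕ => t.val Nn (asg l)) := by
  intro t
  induction t with
  | var i => exact Poly.getD Poly.id (NPC.Poly.const i) (NPC.Poly.const 0)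
  | zero => exact NPC.Poly.const 0
  | suc t ih => exact Poly.succ ih
  | add s t ihs iht => exact Poly.add ihs iht
  | mul s t ihs iht => exact Poly.mul ihs iht
  | smash s t ihs iht => exact poly_two_pow (UPoly.mul (upoly_size ihs) (upoly_size iht))
  | len t ih => exact UPoly.toPoly (upoly_size ih)
  | half t ih => exact Poly.div ih (NPC.Poly.const 2)

theorem asg_cons_zero (x : ℕ) (l : List ℕ) : asg (x :: l) 0 = x := rfl

theorem asg_cons_succ (x : ℕ) (l : List ℕ) (j : ℕ) : asg (x :: l) (j + 1) = asg l j := rfl

theorem asg_tail (l : List ℕ) (j : ℕ) : asg l.tail j = asg l (j + 1) := by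
  cases l with
  | nil => rfl
  | cons a l => rfl

theorem asg_head (l : List ℕ) : l.head?.getD 0 = asg l 0 := by
  cases l with
  | nil => rfl
  | cons a l => rfl

theorem up_ex (i : ℕ) : ∃ up : List ℕ × ℕ → List ℕ, Poly up ∧
    ∀ l x, asg (up (l, x)) = Function.update (asg l) i x := by
  induction i with
  | zero =>
    refine ⟨fun p => p.2 :: p.1.tail, Poly.cons (Poly.snd Poly.id) (Poly.tail (Poly.fst Poly.id)), ?_⟩
    intro l x
    funext j
    cases j with
    | zero => rw [Function.update_self]; rfl
    | succ j =>
      rw [Function.update_of_ne (Nat.succ_ne_zero j)]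
      exact (asg_cons_succ _ _ _).trans (asg_tail _ _)
  | succ i ih =>
    obtain ⟨up, hup, h⟩ := ih
    refine ⟨fun p => p.1.head?.getD 0 :: up (p.1.tail, p.2),
      Poly.cons (Poly.head?_getD (Poly.fst Poly.id) 0)
        (hup.comp (Poly.pair (Poly.tail (Poly.fst Poly.id)) (Poly.snd Poly.id))), ?_⟩
    intro l x
    funext j
    cases j with
    | zero =>
      rw [Function.update_of_ne (Nat.succ_ne_zero i).symm]
      exact (asg_cons_zero _ _).trans (asg_head _)
    | succ j =>
      refine (asg_cons_succ _ _ _).trans ?_
      rw [h]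
      by_cases hj : j = i
      · subst hj
        rw [Function.update_self, Function.update_self]
      · rw [Function.update_of_ne hj, Function.update_of_ne (fun h' => hj (Nat.succ_injective h')),
          asg_tail]

theorem m18 : S_val := ⟨poly_val, up_ex⟩

end Pool.Agent.J6H94.RF18
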